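import Pool.Agent.Helper99.GL.FSpec

/-! # GL, part F26 (SEP) -/

set_option autoImplicit false

open Metric Set Filter Topology

namespace Pool.GL.Helper46

open Pool.GL

/-- the punctured disc is connected -/
lemma preconn_punct {ρ : ℝ} (hρ : 0 < ρ) : IsPreconnected {z : ℂ | 0 < ‖z‖ ∧ ‖z‖ < ρ} := by
  have h1 : {z : ℂ | 0 < ‖z‖ ∧ ‖z‖ < ρ} = Complex.exp '' {w : ℂ | w.re < Real.log ρ} := by
    ext z
    constructor
    · rintro ⟨h1, h2⟩
      refine ⟨Complex.log z, ?_, Complex.exp_log (norm_pos_iff.1 h1)⟩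
      change (Complex.log z).re < Real.log ρ
      rw [Complex.log_re]
      exact Real.log_lt_log h1 h2
    · rintro ⟨w, hw, rfl⟩
      change 0 < ‖Complex.exp w‖ ∧ ‖Complex.exp w‖ < ρ
      rw [Complex.norm_exp]
      refine ⟨Real.exp_pos _, ?_⟩
      rw [← Real.lt_log_iff_exp_lt hρ]
      exact hw
  rw [h1]
  refine IsPreconnected.image ?_ _ Complex.continuous_exp.continuousOn
  exact (convex_halfSpace_re_lt _).isPreconnected

lemma cont_A (I : Inf) : Continuous fun x : ℂ × ℂ => I.A x.1 x.2 := by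
  unfold Inf.A
  refine continuous_finsetSum _ fun m _ => ?_
  exact (continuous_snd.pow m).mul ((I.a m).continuous.comp continuous_fst)

lemma cont_B (I : Inf) : Continuous fun x : ℂ × ℂ => I.B x.1 x.2 := by
  unfold Inf.B
  refine continuous_finsetSum _ fun m _ => ?_
  exact (continuous_snd.pow m).mul ((I.b m).continuous.comp continuous_fst)

lemma contDiff_poly (q : Polynomial ℂ) : ContDiff ℂ 1 fun x : ℂ => q.eval x := by
  simpa using q.contDiff_aeval (𝕜 := ℂ) 1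

lemma contDiff_A (I : Inf) : ContDiff ℂ 1 fun x : ℂ × ℂ => I.A x.1 x.2 := by
  unfold Inf.A
  refine ContDiff.sum fun m _ => ?_
  exact (contDiff_snd.pow m).mul ((contDiff_poly (I.a m)).comp contDiff_fst)

lemma contDiff_B (I : Inf) : ContDiff ℂ 1 fun x : ℂ × ℂ => I.B x.1 x.2 := by
  unfold Inf.B
  refine ContDiff.sum fun m _ => ?_
  exact (contDiff_snd.pow m).mul ((contDiff_poly (I.b m)).comp contDiff_fst)

lemma A_zero (I : Inf) (s : ℂ) : I.A s 0 = (I.a 0).eval s := by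
  unfold Inf.A
  rw [Finset.sum_eq_single 0]
  · simp
  · intro m _ hm
    rw [zero_pow hm, zero_mul]
  · intro h
    exact absurd (Finset.mem_range.2 (Nat.succ_pos _)) h

/-- graphs of solutions of `ds/dz = B/(zA)` are in leaves -/
lemma graph_leaf (hcurve : S_CURVE) (hchart : S_CHART) (F : Fld) (hd : 2 ≤ F.d)
    (hP : F.P.totalDegree ≤ F.d) (hQ : F.Q.totalDegree ≤ F.d) (φ : ℂ → ℂ × ℂ) (ε : ℝ)
    (h : ∀ t ∈ ball (0 : ℂ) ε, (φ t).2 ≠ 0 ∧ F.inf.A (φ t).1 (φ t).2 ≠ 0 ∧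
      HasDerivAt φ (F.inf.B (φ t).1 (φ t).2 / ((φ t).2 * F.inf.A (φ t).1 (φ t).2), 1) t)
    (t : ℂ) (ht : t ∈ ball (0 : ℂ) ε) :
    F.Lf (aff (φ 0).1 (φ 0).2) (aff (φ t).1 (φ t).2) := by
  have hseg : ∀ τ ∈ Icc (0 : ℝ) 1, (τ : ℂ) * t ∈ ball (0 : ℂ) ε := by
    intro τ hτ
    rw [mem_ball_zero_iff] at ht ⊢
    rw [norm_mul, Complex.norm_real, Real.norm_of_nonneg hτ.1]
    have := norm_nonneg t
    nlinarith [hτ.2]
  set γ : ℝ → ℂ × ℂ := fun τ => aff (φ ((τ : ℂ) * t)).1 (φ ((τ : ℂ) * t)).2 with hγ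
  set k : ℝ → ℂ := fun τ => t * ((φ ((τ : ℂ) * t)).2 ^ (F.d - 2) /
    F.inf.A (φ ((τ : ℂ) * t)).1 (φ ((τ : ℂ) * t)).2) with hk
  have hφc : ContinuousOn (fun τ : ℝ => φ ((τ : ℂ) * t)) (Icc 0 1) := by
    intro τ hτ
    have h1 := (h _ (hseg τ hτ)).2.2.continuousAt
    have h2 : ContinuousAt (fun τ : ℝ => (τ : ℂ) * t) τ := by fun_prop
    exact (ContinuousAt.comp (g := φ) (f := fun τ : ℝ => (τ : ℂ) * t) h1 h2).continuousWithinAt
  have hkc : ContinuousOn k (Icc 0 1) := by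
    refine continuousOn_const.mul (ContinuousOn.div ?_ ?_ ?_)
    · exact (continuous_snd.comp_continuousOn hφc).pow _
    · exact (cont_A F.inf).comp_continuousOn hφc
    · intro τ hτ
      exact (h _ (hseg τ hτ)).2.1
  have hder : ∀ τ ∈ Icc (0 : ℝ) 1, HasDerivWithinAt γ (k τ • F.W (γ τ)) (Icc 0 1) τ := by
    intro τ hτ
    obtain ⟨hz, hA, hφ⟩ := h _ (hseg τ hτ)
    have h2 : HasDerivAt (fun τ : ℝ => (τ : ℂ) * t) t τ := by
      simpa using (Complex.ofRealCLM.hasDerivAt (x := τ)).mul_const t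
    have h3 : HasDerivAt (fun τ : ℝ => φ ((τ : ℂ) * t))
        (t • ((F.inf.B (φ ((τ : ℂ) * t)).1 (φ ((τ : ℂ) * t)).2 /
          ((φ ((τ : ℂ) * t)).2 * F.inf.A (φ ((τ : ℂ) * t)).1 (φ ((τ : ℂ) * t)).2), 1) :
          ℂ × ℂ)) τ := HasDerivAt.scomp τ hφ h2
    set s := (φ ((τ : ℂ) * t)).1 with hs
    set z := (φ ((τ : ℂ) * t)).2 with hzz
    set A := F.inf.A s z with hAd
    set B := F.inf.B s z with hBd
    have hs' : HasDerivAt (fun τ : ℝ => (φ ((τ : ℂ) * t)).1) (t * (B / (z * A))) τ := by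
      have := (hasFDerivAt_fst (𝕜 := ℝ) (E := ℂ) (F := ℂ)
        (p := φ ((τ : ℂ) * t))).comp_hasDerivAt τ h3
      simpa [Function.comp_def] using this
    have hz' : HasDerivAt (fun τ : ℝ => (φ ((τ : ℂ) * t)).2) t τ := by
      have := (hasFDerivAt_snd (𝕜 := ℝ) (E := ℂ) (F := ℂ)
        (p := φ ((τ : ℂ) * t))).comp_hasDerivAt τ h3
      simpa [Function.comp_def] using this
    have e1 : HasDerivAt (fun τ : ℝ => 1 / (φ ((τ : ℂ) * t)).2) (-t / z ^ 2) τ := by
      have := hz'.fun_inv hz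
      simpa [one_div] using this
    have e2 : HasDerivAt (fun τ : ℝ => (φ ((τ : ℂ) * t)).1 / (φ ((τ : ℂ) * t)).2)
        ((t * (B / (z * A)) * z - s * t) / z ^ 2) τ := hs'.div hz' hz
    have e3 : HasDerivAt γ ((-t / z ^ 2, (t * (B / (z * A)) * z - s * t) / z ^ 2) : ℂ × ℂ) τ :=
      e1.prodMk e2
    have e4 : ((-t / z ^ 2, (t * (B / (z * A)) * z - s * t) / z ^ 2) : ℂ × ℂ) =
        k τ • F.W (γ τ) := by
      obtain ⟨c1, c2⟩ := hchart F hP hQ s z hz
      have hzd : z ^ F.d = z ^ (F.d - 2) * z ^ 2 := by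
        rw [← pow_add]
        congr 1
        omega
      have hzd0 : z ^ (F.d - 2) ≠ 0 := pow_ne_zero _ hz
      rw [hzd] at c1 c2
      have w1 : z ^ (F.d - 2) * (F.W (aff s z)).1 = -A / z ^ 2 := by
        rw [eq_div_iff (pow_ne_zero _ hz)]
        linear_combination c1
      have w2 : z ^ (F.d - 2) * (F.W (aff s z)).2 = (B - s * A) / z ^ 2 := by
        rw [eq_div_iff (pow_ne_zero _ hz)]
        linear_combination c2
      apply Prod.ext
      · change -t / z ^ 2 = t * (z ^ (F.d - 2) / A) * (F.W (aff s z)).1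
        have : t * (z ^ (F.d - 2) / A) * (F.W (aff s z)).1 =
          t / A * (z ^ (F.d - 2) * (F.W (aff s z)).1) := by ring
        rw [this, w1]
        field_simp
      · change (t * (B / (z * A)) * z - s * t) / z ^ 2 =
          t * (z ^ (F.d - 2) / A) * (F.W (aff s z)).2
        have : t * (z ^ (F.d - 2) / A) * (F.W (aff s z)).2 =
          t / A * (z ^ (F.d - 2) * (F.W (aff s z)).2) := by ring
        rw [this, w2]
        field_simp
    rw [← e4]
    exact e3.hasDerivWithinAt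
  have := hcurve F γ k 1 zero_le_one hkc hder
  simpa [hγ] using this

/-- F26 -/
theorem SEP (hode : S_HODE) (hcurve : S_CURVE) (hchart : S_CHART) : S_SEP := by
  intro F hF p hp s₁ hs₁ r hr C h1 h2
  have hhyp := hF.hypInf s₁ hs₁
  have ha0 : (F.inf.a 0).eval s₁ ≠ 0 := by
    intro h0
    apply hhyp.2
    rw [h0, zero_div, Complex.zero_im]
  -- a ball where `A ≠ 0`
  obtain ⟨r₁, hr₁, hA⟩ : ∃ r₁ > 0, ∀ s z : ℂ, ‖s - s₁‖ < r₁ → ‖z‖ < r₁ → F.inf.A s z ≠ 0 := by
    have hc := (cont_A F.inf).continuousAt (x := ((s₁, 0) : ℂ × ℂ))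
    have hne : F.inf.A ((s₁, 0) : ℂ × ℂ).1 ((s₁, 0) : ℂ × ℂ).2 ≠ 0 := by
      change F.inf.A s₁ 0 ≠ 0
      rw [A_zero]
      exact ha0
    have hev := hc.eventually_ne hne
    obtain ⟨r₁, hr₁, hb⟩ := Metric.eventually_nhds_iff.1 hev
    refine ⟨r₁, hr₁, fun s z hs hz => ?_⟩
    refine hb (y := (s, z)) ?_
    rw [Prod.dist_eq, max_lt_iff]
    exact ⟨by rw [dist_eq_norm]; exact hs, by rw [dist_eq_norm, sub_zero]; exact hz⟩
  set r' := min r r₁ with hr'
  have hr'0 : 0 < r' := lt_min hr hr₁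
  set U : Set (ℂ × ℂ) := {x | ‖x.1 - s₁‖ < r' ∧ x.2 ≠ 0 ∧ ‖x.2‖ < r'} with hU
  have hUo : IsOpen U := by
    have a1 : IsOpen {x : ℂ × ℂ | ‖x.1 - s₁‖ < r'} :=
      isOpen_lt ((continuous_fst.sub continuous_const).norm) continuous_const
    have a2 : IsOpen {x : ℂ × ℂ | x.2 ≠ 0} := isOpen_ne_fun continuous_snd continuous_const
    have a3 : IsOpen {x : ℂ × ℂ | ‖x.2‖ < r'} := isOpen_lt continuous_snd.norm continuous_const
    exact a1.inter (a2.inter a3)
  have hUA : ∀ x ∈ U, F.inf.A x.1 x.2 ≠ 0 := fun x hx =>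
    hA _ _ (hx.1.trans_le (min_le_right _ _)) (hx.2.2.trans_le (min_le_right _ _))
  set G : ℂ × ℂ → ℂ × ℂ := fun x => (F.inf.B x.1 x.2 / (x.2 * F.inf.A x.1 x.2), 1) with hG
  have hGc : ContDiffOn ℂ 1 G U := by
    refine ContDiffOn.prodMk (ContDiffOn.div ?_ ?_ ?_) contDiffOn_const
    · exact (contDiff_B F.inf).contDiffOn
    · exact (contDiff_snd.mul (contDiff_A F.inf)).contDiffOn
    · intro x hx
      exact mul_ne_zero hx.2.1 (hUA x hx)
  -- local solutions
  have hloc : ∀ x₀ ∈ U, ∃ δ > 0, ∃ ε > 0, ∀ x ∈ ball x₀ δ, F.Lf p (aff x.1 x.2) →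
      ∃ φ : ℂ → ℂ × ℂ, φ 0 = x ∧ ∀ t ∈ ball (0 : ℂ) ε, φ t ∈ U ∧ (φ t).2 = x.2 + t ∧
        HasDerivAt φ (G (φ t)) t ∧ F.Lf p (aff (φ t).1 (φ t).2) := by
    intro x₀ hx₀
    obtain ⟨δ, hδ, ε, hε, _, hsol⟩ := hode U G hUo hGc x₀ hx₀
    refine ⟨δ, hδ, ε, hε, fun x hx hl => ?_⟩
    obtain ⟨φ, hφ0, hφ⟩ := hsol x hx
    refine ⟨φ, hφ0, fun t ht => ⟨(hφ t ht).1, ?_, (hφ t ht).2, ?_⟩⟩
    · -- the second coordinate
      have hd2 : ∀ t ∈ ball (0 : ℂ) ε, HasDerivAt (fun t => (φ t).2 - t) 0 t := by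
        intro t ht
        have h3 := (hasFDerivAt_snd (𝕜 := ℂ) (E := ℂ) (F := ℂ)
          (p := φ t)).comp_hasDerivAt t (hφ t ht).2
        have h4 : HasDerivAt (fun t => (φ t).2) 1 t := by
          simpa [hG, Function.comp_def] using h3
        have h5 := h4.sub (hasDerivAt_id t)
        rw [sub_self] at h5
        exact h5
      have hcst := (convex_ball (0 : ℂ) ε).is_const_of_fderivWithin_eq_zero (𝕜 := ℂ)
        (f := fun t => (φ t).2 - t)
        (fun t ht => (hd2 t ht).differentiableAt.differentiableWithinAt)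
        (fun t ht => by
          have h5 := (hd2 t ht).hasFDerivAt.hasFDerivWithinAt (s := ball (0 : ℂ) ε)
          have h6 := h5.fderivWithin (isOpen_ball.uniqueDiffWithinAt ht)
          rw [h6]
          ext
          simp) (mem_ball_self hε) ht
      simp only [hφ0, sub_zero] at hcst
      linear_combination -hcst
    · have := graph_leaf hcurve hchart F hF.hd hF.degP hF.degQ φ ε (fun t ht =>
        ⟨(hφ t ht).1.2.1, hUA _ (hφ t ht).1, (hφ t ht).2⟩) t ht
      rw [hφ0] at this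
      exact Relation.ReflTransGen.trans hl this
  -- the set of good ordinates
  set E : Set ℂ := {z | ∃ s, ((s, z) : ℂ × ℂ) ∈ U ∧ F.Lf p (aff s z)} with hE
  have hEo : IsOpen E := by
    rw [Metric.isOpen_iff]
    rintro z ⟨s, hs, hl⟩
    obtain ⟨δ, hδ, ε, hε, hx⟩ := hloc _ hs
    obtain ⟨φ, hφ0, hφ⟩ := hx (s, z) (mem_ball_self hδ) hl
    refine ⟨ε, hε, fun w hw => ?_⟩
    have hw' : w - z ∈ ball (0 : ℂ) ε := by
      rw [mem_ball_zero_iff, ← dist_eq_norm]; exact hw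
    obtain ⟨b1, b2, b3, b4⟩ := hφ _ hw'
    have b5 : (φ (w - z)).2 = w := by rw [b2]; simp
    refine ⟨(φ (w - z)).1, ?_, ?_⟩
    · have : (((φ (w - z)).1, w) : ℂ × ℂ) = φ (w - z) := Prod.ext rfl b5.symm
      rw [this]; exact b1
    · rw [b5] at b4
      exact b4
  -- size of the ordinates
  set ρ : ℝ := min r' (r' / (2 * (|C| + 1))) with hρ
  have hC1 : 0 < |C| + 1 := by positivity
  have hρ0 : 0 < ρ := lt_min hr'0 (by positivity)
  have hρr : ρ ≤ r' := min_le_left _ _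
  have hρC : |C| * ρ ≤ r' / 2 := by
    have h3 : ρ ≤ r' / (2 * (|C| + 1)) := min_le_right _ _
    rw [le_div_iff₀ (by positivity)] at h3
    have := abs_nonneg C
    nlinarith
  have hsize : ∀ s z : ℂ, ((s, z) : ℂ × ℂ) ∈ U → F.Lf p (aff s z) → ‖s - s₁‖ ≤ |C| * ‖z‖ := by
    intro s z hs hl
    have h3 := h1 s z (hs.1.trans_le (min_le_left _ _)) (norm_pos_iff.2 hs.2.1)
      (hs.2.2.trans_le (min_le_left _ _)) hl
    exact h3.trans (mul_le_mul_of_nonneg_right (le_abs_self C) (norm_nonneg _))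
  set D : Set ℂ := {z : ℂ | 0 < ‖z‖ ∧ ‖z‖ < ρ} with hD
  have hDo : IsOpen D := (isOpen_lt continuous_const continuous_norm).inter
    (isOpen_lt continuous_norm continuous_const)
  have hcl : closure E ∩ D ⊆ E := by
    rintro z ⟨hz1, hz2⟩
    obtain ⟨u, huE, hu⟩ := mem_closure_iff_seq_limit.1 hz1
    choose s hsU hsL using huE
    have hev : ∀ᶠ n in atTop, u n ∈ D := hu.eventually (hDo.mem_nhds hz2)
    obtain ⟨N, hN⟩ := eventually_atTop.1 hev
    have hsK : ∀ n, s (n + N) ∈ closedBall s₁ (r' / 2) := by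
      intro n
      rw [mem_closedBall, dist_eq_norm]
      have h4 := hsize _ _ (hsU (n + N)) (hsL (n + N))
      have h5 := (hN (n + N) (Nat.le_add_left N n)).2
      refine h4.trans (le_trans ?_ hρC)
      exact mul_le_mul_of_nonneg_left h5.le (abs_nonneg C)
    obtain ⟨s', hs', θ, hθ, hθl⟩ := (isCompact_closedBall s₁ (r' / 2)).tendsto_subseq hsK
    have hx₀ : ((s', z) : ℂ × ℂ) ∈ U := by
      rw [mem_closedBall, dist_eq_norm] at hs'
      refine ⟨?_, ?_, ?_⟩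
      · change ‖s' - s₁‖ < r'
        linarith
      · exact norm_pos_iff.1 hz2.1
      · exact hz2.2.trans_le hρr
    obtain ⟨δ, hδ, ε, hε, hx⟩ := hloc _ hx₀
    have hlim1 : Tendsto (fun n => u (θ n + N)) atTop (𝓝 z) :=
      hu.comp ((tendsto_add_atTop_nat N).comp hθ.tendsto_atTop)
    have hlim2 : Tendsto (fun n => ((s (θ n + N), u (θ n + N)) : ℂ × ℂ)) atTop (𝓝 (s', z)) :=
      hθl.prodMk_nhds hlim1
    obtain ⟨n, hn1, hn2⟩ := ((hlim2.eventually (ball_mem_nhds _ hδ)).and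
      (hlim1.eventually (ball_mem_nhds z hε))).exists
    obtain ⟨φ, hφ0, hφ⟩ := hx _ hn1 (hsL _)
    have hw' : z - u (θ n + N) ∈ ball (0 : ℂ) ε := by
      rw [mem_ball_zero_iff, ← dist_eq_norm, dist_comm]; exact hn2
    obtain ⟨b1, b2, b3, b4⟩ := hφ _ hw'
    have b5 : (φ (z - u (θ n + N))).2 = z := by rw [b2]; simp
    refine ⟨(φ (z - u (θ n + N))).1, ?_, ?_⟩
    · have : (((φ (z - u (θ n + N))).1, z) : ℂ × ℂ) = φ (z - u (θ n + N)) := Prod.ext rfl b5.symm
      rw [this]; exact b1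
    · rw [b5] at b4
      exact b4
  by_cases hne : (D ∩ E).Nonempty
  · have hDE : D ⊆ E := (preconn_punct hρ0).subset_of_closure_inter_subset hEo hne hcl
    classical
    set σ : ℂ → ℂ := fun z => if hz : z ∈ D then Classical.choose (hDE hz) else s₁ with hσ
    have hσs : ∀ z ∈ D, ((σ z, z) : ℂ × ℂ) ∈ U ∧ F.Lf p (aff (σ z) z) := by
      intro z hz
      have h3 : σ z = Classical.choose (hDE hz) := by
        rw [hσ]
        simp only
        rw [dif_pos hz]
      rw [h3]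
      exact Classical.choose_spec (hDE hz)
    have hσ0 : σ 0 = s₁ := by
      rw [hσ]
      simp only
      rw [dif_neg]
      intro h3
      have := h3.1
      simp at this
    have huniq : ∀ s z : ℂ, ‖s - s₁‖ < r' → z ∈ D → F.Lf p (aff s z) → s = σ z := by
      intro s z hs hz hl
      obtain ⟨c1, c2⟩ := hσs z hz
      exact h2 s (σ z) z (hs.trans_le (min_le_left _ _)) (c1.1.trans_le (min_le_left _ _)) hz.1
        (hz.2.trans_le (hρr.trans (min_le_left _ _))) hl c2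
    have hdiff : ∀ z ∈ D, DifferentiableAt ℂ σ z := by
      intro z hz
      obtain ⟨c1, c2⟩ := hσs z hz
      obtain ⟨δ, hδ, ε, hε, hx⟩ := hloc _ c1
      obtain ⟨φ, hφ0, hφ⟩ := hx (σ z, z) (mem_ball_self hδ) c2
      have h3 : DifferentiableAt ℂ (fun w => (φ (w - z)).1) z := by
        have h4 := (hφ 0 (mem_ball_self hε)).2.2.1.differentiableAt
        have h5 : DifferentiableAt ℂ (fun t => (φ t).1) (z - z) := by
          rw [sub_self]
          exact h4.fst
        exact DifferentiableAt.comp (g := fun t => (φ t).1) (f := fun w => w - z) z h5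
          (differentiableAt_id.sub_const z)
      refine h3.congr_of_eventuallyEq ?_
      filter_upwards [hDo.mem_nhds hz, ball_mem_nhds z hε] with w hw1 hw2
      have hw' : w - z ∈ ball (0 : ℂ) ε := by
        rw [mem_ball_zero_iff, ← dist_eq_norm]; exact hw2
      obtain ⟨b1, b2, b3, b4⟩ := hφ _ hw'
      have b5 : (φ (w - z)).2 = w := by rw [b2]; simp
      rw [b5] at b4
      exact (huniq _ w b1.1 hw1 b4).symm
    have hcont : ContinuousAt σ 0 := by
      rw [Metric.continuousAt_iff]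
      intro ε hε
      refine ⟨min ρ (ε / (|C| + 1)), lt_min hρ0 (by positivity), fun {z} hz => ?_⟩
      rw [dist_zero_right] at hz
      rw [hσ0, dist_eq_norm]
      rcases eq_or_ne z 0 with rfl | hz0
      · rw [hσ0, sub_self, norm_zero]; exact hε
      · have hzD : z ∈ D := ⟨norm_pos_iff.2 hz0, hz.trans_le (min_le_left _ _)⟩
        obtain ⟨c1, c2⟩ := hσs z hzD
        have h4 := hsize _ _ c1 c2
        have h5 : ‖z‖ < ε / (|C| + 1) := hz.trans_le (min_le_right _ _)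
        rw [lt_div_iff₀ hC1] at h5
        have h6 := norm_pos_iff.2 hz0
        nlinarith [abs_nonneg C]
    have han : AnalyticAt ℂ σ 0 := by
      refine Complex.analyticAt_of_differentiable_on_punctured_nhds_of_continuousAt ?_ hcont
      rw [eventually_nhdsWithin_iff]
      filter_upwards [ball_mem_nhds (0 : ℂ) hρ0] with z hz hz0
      rw [mem_ball_zero_iff] at hz
      exact hdiff z ⟨norm_pos_iff.2 hz0, hz⟩
    refine ⟨ρ, hρ0, σ, han, fun s z hs hz0 hz hl => ?_⟩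
    exact huniq s z (hs.trans_le hρr) ⟨hz0, hz⟩ hl
  · refine ⟨ρ, hρ0, fun _ => s₁, analyticAt_const, fun s z hs hz0 hz hl => ?_⟩
    exfalso
    apply hne
    exact ⟨z, ⟨hz0, hz⟩, s, ⟨hs.trans_le hρr, norm_pos_iff.1 hz0, hz.trans_le hρr⟩, hl⟩

end Pool.GL.Helper46
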