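import Pool.Agent.Helper99.GL.FSpec

/-! # GL, part F28 (ESC) -/

set_option autoImplicit false

open Metric Set Filter Topology

namespace Pool.GL.Helper46

open Pool.GL

/-- polynomials are bounded on bounded sets -/
lemma poly_bdd (R : MvPolynomial (Fin 2) ℂ) (M : ℝ) :
    ∃ K : ℝ, ∀ q : ℂ × ℂ, ‖q.1‖ ≤ M → ‖q.2‖ ≤ M → ‖MvPolynomial.eval ![q.1, q.2] R‖ ≤ K := by
  have hc : Continuous fun q : ℂ × ℂ => MvPolynomial.eval ![q.1, q.2] R := by
    refine (MvPolynomial.continuous_eval R).comp (continuous_pi fun i => ?_)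
    fin_cases i
    · exact continuous_fst
    · exact continuous_snd
  obtain ⟨K, hK⟩ := ((isCompact_closedBall (0 : ℂ) M).prod
    (isCompact_closedBall (0 : ℂ) M)).exists_bound_of_continuousOn hc.continuousOn
  refine ⟨K, fun q h1 h2 => hK q ⟨?_, ?_⟩⟩
  · rw [mem_closedBall_zero_iff]; exact h1
  · rw [mem_closedBall_zero_iff]; exact h2

/-- F28 -/
theorem ESC (hlift : S_LIFT) (hinf : S_LIFTINF) (hsad : S_SAD) (hsep : S_SEP) (hpol : S_POL) :
    S_ESC := by
  classical
  intro F hF s₀ hs₀ ε hε p hp hno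
  have hA := hlift F hF s₀ hs₀ ε hε p hp hno
  obtain ⟨r, hr, hrr⟩ := hinf F hF p hp hA
  -- the roots
  have hb0 : F.inf.b 0 ≠ 0 := by
    intro h0
    have := hF.lead
    rw [h0] at this
    simp at this
  set Z : Finset ℂ := (F.inf.b 0).roots.toFinset with hZ
  have hmem : ∀ s, s ∈ Z ↔ (F.inf.b 0).eval s = 0 := by
    intro s
    rw [hZ, Multiset.mem_toFinset, Polynomial.mem_roots hb0, Polynomial.IsRoot.def]
  have hsepZ : ∀ s₁ : ℂ, s₁ ∈ Z → ∃ δ > 0, ∃ σ : ℂ → ℂ, AnalyticAt ℂ σ 0 ∧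
      ∀ s z : ℂ, ‖s - s₁‖ < δ → 0 < ‖z‖ → ‖z‖ < δ → F.Lf p (aff s z) → s = σ z := by
    intro s₁ hs₁
    have h0 := (hmem s₁).1 hs₁
    obtain ⟨r', hr', C, h1, h2⟩ := hsad F hF p hp hA s₁ h0
    exact hsep F hF p hp s₁ h0 r' hr' C h1 h2
  choose! δ hδ σ hσ hgr using hsepZ
  -- enumerate the roots
  set n := Z.card with hn
  set e : Fin n ≃ Z := Z.equivFin.symm with he
  obtain ⟨R, hR0, hRc, δ', hδ', K', hK'⟩ := hpol n (fun j => σ (e j))
    (fun j => hσ _ (e j).2)
  -- the compact set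
  set S : ℝ := 1 / r with hS
  set K : Set ℂ := closedBall (0 : ℂ) S \ ⋃ s₁ ∈ Z, ball s₁ (δ s₁) with hKd
  have hKc : IsCompact K := by
    refine (isCompact_closedBall (0 : ℂ) S).diff ?_
    exact isOpen_biUnion fun s _ => isOpen_ball
  have hKO : K ⊆ F.inf.Om := by
    intro s hs h0
    apply hs.2
    have hsZ := (hmem s).2 h0
    exact mem_biUnion hsZ (mem_ball_self (hδ s hsZ))
  obtain ⟨δK, hδK, haway⟩ := hA K hKc hKO
  -- a common radius for the roots
  obtain ⟨δ₀, hδ₀, hδ₀'⟩ : ∃ δ₀ > 0, ∀ s₁ ∈ Z, δ₀ ≤ δ s₁ := by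
    rcases Z.eq_empty_or_nonempty with hE | hE
    · exact ⟨1, one_pos, fun s hs => by rw [hE] at hs; simp at hs⟩
    · obtain ⟨m, hm, hmin⟩ := Z.exists_min_image δ hE
      exact ⟨δ m, hδ m hm, hmin⟩
  set η : ℝ := min (min δK δ₀) (min δ' 1) with hη
  have hη0 : 0 < η := lt_min (lt_min hδK hδ₀) (lt_min hδ' one_pos)
  have hη1 : η ≤ δK := (min_le_left _ _).trans (min_le_left _ _)
  have hη2 : η ≤ δ₀ := (min_le_left _ _).trans (min_le_right _ _)
  have hη3 : η ≤ δ' := (min_le_right _ _).trans (min_le_left _ _)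
  have hη4 : η ≤ 1 := (min_le_right _ _).trans (min_le_right _ _)
  set M : ℝ := 1 / η + 1 / r + 1 / (η * r) with hM
  obtain ⟨K'', hK''⟩ := poly_bdd R M
  refine ⟨R, hR0, hRc, max K' K'', ?_⟩
  intro q hq
  -- the direction at infinity
  have hy : ‖q.2‖ ≤ 1 / r ∨ r * ‖q.2‖ ≤ ‖q.1‖ := by
    by_contra hcon
    push Not at hcon
    obtain ⟨h1, h2⟩ := hcon
    have hq2 : 0 < ‖q.2‖ := lt_of_le_of_lt (by positivity) h1
    have hq20 : q.2 ≠ 0 := norm_pos_iff.1 hq2
    have h3 := hrr (q.1 / q.2) (1 / q.2) (by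
      rw [norm_div, div_lt_iff₀ hq2]; exact h2) (by
      rw [norm_div, norm_one]; positivity) (by
      rw [norm_div, norm_one, div_lt_iff₀ hq2]
      rw [div_lt_iff₀ hr] at h1
      linarith)
    apply h3
    have h4 : ((q.1 / q.2 / (1 / q.2), 1 / (1 / q.2)) : ℂ × ℂ) = q := by
      apply Prod.ext
      · change q.1 / q.2 / (1 / q.2) = q.1
        field_simp
      · change 1 / (1 / q.2) = q.2
        field_simp
    rw [h4]
    exact hq
  by_cases hx : ‖q.1‖ ≤ 1 / η
  · refine (hK'' q ?_ ?_).trans (le_max_right _ _)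
    · rw [hM]
      have : 0 < 1 / r + 1 / (η * r) := by positivity
      linarith
    · rcases hy with h | h
      · rw [hM]
        have : 0 < 1 / η + 1 / (η * r) := by positivity
        linarith
      · have h5 : ‖q.2‖ ≤ 1 / (η * r) := by
          rw [le_div_iff₀ (by positivity)]
          rw [le_div_iff₀ hη0] at hx
          nlinarith
        rw [hM]
        have : 0 < 1 / η + 1 / r := by positivity
        linarith
  · push Not at hx
    have hq1 : 0 < ‖q.1‖ := lt_of_le_of_lt (by positivity) hx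
    have hq10 : q.1 ≠ 0 := norm_pos_iff.1 hq1
    set z : ℂ := 1 / q.1 with hz
    set s : ℂ := q.2 / q.1 with hs
    have hqe : aff s z = q := by
      unfold aff
      apply Prod.ext
      · change 1 / z = q.1
        rw [hz]; field_simp
      · change s / z = q.2
        rw [hz, hs]; field_simp
    have hzn : ‖z‖ = 1 / ‖q.1‖ := by rw [hz, norm_div, norm_one]
    have hz0 : 0 < ‖z‖ := by rw [hzn]; positivity
    have hzη : ‖z‖ < η := by
      rw [hzn, div_lt_iff₀ hq1]
      rw [div_lt_iff₀ hη0] at hx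
      linarith
    have hq1' : 1 ≤ ‖q.1‖ := by
      have : 1 ≤ 1 / η := by rw [le_div_iff₀ hη0]; linarith
      linarith
    have hsS : s ∈ closedBall (0 : ℂ) S := by
      rw [mem_closedBall_zero_iff, hs, norm_div, div_le_iff₀ hq1, hS]
      rcases hy with h | h
      · have : 1 / r ≤ 1 / r * ‖q.1‖ := le_mul_of_one_le_right (by positivity) hq1'
        linarith
      · rw [one_div, ← div_eq_inv_mul, le_div_iff₀ hr]
        linarith
    have hsK : s ∉ K := by
      intro h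
      exact haway s h z hz0 (hzη.trans_le hη1) (by rw [hqe]; exact hq)
    have hsU : s ∈ ⋃ s₁ ∈ Z, ball s₁ (δ s₁) := by
      by_contra h
      exact hsK ⟨hsS, h⟩
    obtain ⟨s₁, hs₁, hs₁'⟩ := mem_iUnion₂.1 hsU
    have hσe := hgr s₁ hs₁ s z (by rw [mem_ball, dist_eq_norm] at hs₁'; exact hs₁') hz0
      ((hzη.trans_le hη2).trans_le (hδ₀' s₁ hs₁)) (by rw [hqe]; exact hq)
    refine le_trans ?_ (le_max_left K' K'')
    have h6 := hK' (e.symm ⟨s₁, hs₁⟩) z hz0 (hzη.trans_le hη3)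
    simp only [Equiv.apply_symm_apply] at h6
    rw [← hσe] at h6
    have h7 : (![1 / z, s / z] : Fin 2 → ℂ) = ![q.1, q.2] := by
      have := hqe
      unfold aff at this
      rw [← this]
    rw [h7] at h6
    exact h6

end Pool.GL.Helper46
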